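import Pool.Agent.Q233.BG.Main2

/-!
# Condensate fraction of the dilute Bose gas with an integrable pair potential and a gap below the
energy of third order

`N` bosons on the torus of side `L` in dimension `n ≥ 3` with the Hamiltonian

`H = ∑_i (-μ Δ_i) + ∑_{i<j} v(|x_i - x_j|)`.

The pair potential `v ≥ 0` is integrable on `ℝ^n` and has a finite range; the one-particle hopping
kernel of the library is zero here, `enN (ENNReal.ofReal μ) (fun _ => 0) v Ψ` is the energy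
`(Ψ, H Ψ)`.  In the thermodynamic limit at the density `ν ∈ [ρ/2, ρ]`:

* if each particle outside the condensate costs the energy `κ ≥ ρ^(n - 1 + 1/m)` (a gap `κ` between
  the constant function and all other functions of one particle), then all states whose energy is
  within `ρ^(n - 1 + n/(2m)) N` of the minimum have the fraction `1 - ρ^(1/(50m))` of the particles
  in the condensate;
* there are states with this fraction of the particles in the condensate whose energy `(Ψ, H Ψ)`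
  (without a gap) is within `ρ^(n - 1 + 1/m) N` of the ground state energy of `H`.

For `n = 3` (`m = 63`) the gap is `ρ^(2 + 1/63)`: less than the energy of second order (Lee, Huang
and Yang) per particle, of order `ρ^(3/2)`, and less than the energy of third order (Wu), of order
`ρ^2 log ρ`.
-/

set_option autoImplicit false

open MeasureTheory
open scoped ENNReal

namespace Pool.Agent.Results.MP_4952d6_mp.SoftSmallGap

open Pool.Agent.W761.CB Pool.Agent.W761.CC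

/-- **Condensation with a gap below the energy of third order.**  `n ≥ 3`, `m = n³ + 4 n²`,
`μ > 0`, and `v` is a pair potential with values in `[0, ∞]`, of range at most `R₀`, with
`0 < ∫ v(|z|) dz < ∞`.  There is `ρ₀ > 0` such that for all `ρ ∈ (0, ρ₀]` there is `L₀` such that
for all `L ≥ L₀` and all `N` with `ρ / 2 ≤ N / L^n ≤ ρ`:

* for all `κ ≥ ρ^(n - 1 + 1/m)`, every state which minimises the energy
  `(Ψ, H Ψ) + κ (N - N₀(Ψ))` up to `ρ^(n - 1 + n/(2m)) N` has `N₀(Ψ) ≥ (1 - ρ^(1/(50m))) N`, where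
  `N₀` is the number of particles in the condensate;
* there is a state `Ψ` with `N₀(Ψ) ≥ (1 - ρ^(1/(50m))) N` which minimises the energy `(Ψ, H Ψ)` up
  to `ρ^(n - 1 + 1/m) N`. -/
theorem result (n m : ℕ) (μ R₀ : ℝ) (v : ℝ → ℝ≥0∞) (hn : 3 ≤ n) (hμ : 0 < μ)
    (hm : m = n ^ 3 + 4 * n ^ 2) (hv : Measurable v) (hvR : ∀ r, R₀ < r → v r = 0)
    (hv0 : ∫⁻ z : Fin n → ℝ, v (el z) ≠ 0) (hvf : ∫⁻ z : Fin n → ℝ, v (el z) ≠ ⊤) :
    ∃ ρ₀ : ℝ, 0 < ρ₀ ∧ ∀ ρ : ℝ, 0 < ρ → ρ ≤ ρ₀ → ∃ L₀ : ℝ,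
      ∀ (L : ℝ) [Fact (0 < L)], L₀ ≤ L →
      ∀ N : ℕ, ρ / 2 * L ^ n ≤ N → (N : ℝ) ≤ ρ * L ^ n →
      (∀ κ : ℝ, ρ ^ ((n : ℝ) - 1 + 1 / m) ≤ κ →
        ∀ Ψ : (Fin N → Tor n L) → ℂ, IsWf2 Ψ →
        (∀ Φ : (Fin N → Tor n L) → ℂ, IsWf2 Φ →
          enN (ENNReal.ofReal μ) (fun _ => 0) v Ψ + ENNReal.ofReal (κ * (N - condN Ψ)) ≤
            enN (ENNReal.ofReal μ) (fun _ => 0) v Φ + ENNReal.ofReal (κ * (N - condN Φ)) +
              ENNReal.ofReal (ρ ^ ((n : ℝ) - 1 + n / (2 * m)) * N)) →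
        (1 - ρ ^ (1 / (50 * m) : ℝ)) * N ≤ condN Ψ) ∧
      ∃ Ψ : (Fin N → Tor n L) → ℂ, IsWf2 Ψ ∧ (1 - ρ ^ (1 / (50 * m) : ℝ)) * N ≤ condN Ψ ∧
        ∀ Φ : (Fin N → Tor n L) → ℂ, IsWf2 Φ → enN (ENNReal.ofReal μ) (fun _ => 0) v Ψ ≤
          enN (ENNReal.ofReal μ) (fun _ => 0) v Φ +
            ENNReal.ofReal (ρ ^ ((n : ℝ) - 1 + 1 / m) * N) :=
  Pool.Agent.Q233.BG.gapMain2 n m μ R₀ v hn hμ hm hv hvR hv0 hvf

end Pool.Agent.Results.MP_4952d6_mp.SoftSmallGap
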